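import Pool.Agent.Helper36.RN.GoalsH

/-! MP_c98eff_gt, project RFn, existence part, packet TEV: evolution of the torsion. -/

namespace Pool.Agent.Helper56.RN

open Pool.Agent.Helper36.RN Pool.Agent.Helper47.RFn

variable {n : ℕ} {𝒜 : Type} [CommRing 𝒜] [Algebra ℝ 𝒜] (e : Ix n → Derivation ℝ 𝒜 𝒜)
  (n0 : Ix n → 𝒜) (A θ : Ix n → Ix n → 𝒜) (w : Ix n → Ix n → Ix n → 𝒜)

theorem Fd_add (p : Ix n) (x y : 𝒜) : FR.Fd e A p (x + y) = FR.Fd e A p x + FR.Fd e A p y := by
  simp [FR.Fd, mul_add, Finset.sum_add_distrib]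

theorem Fd_neg (p : Ix n) (x : 𝒜) : FR.Fd e A p (-x) = - FR.Fd e A p x := by
  simp [FR.Fd]

theorem Fd_sum {ι : Type} (s : Finset ι) (p : Ix n) (f : ι → 𝒜) :
    FR.Fd e A p (∑ i ∈ s, f i) = ∑ i ∈ s, FR.Fd e A p (f i) := by
  simp only [FR.Fd, map_sum, Finset.mul_sum]
  exact Finset.sum_comm

theorem cd4_X4 (p a b c : Ix n) : TC.cd4 e A w p (TC.X4 e n0 A w) p a b c =
    TC.cd4 e A w p (TC.K e n0 A w) p a b c + TC.cd4 e A w p (TC.K e n0 A w) a b p c
      + TC.cd4 e A w p (TC.K e n0 A w) b p a c := by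
  simp only [TC.cd4, TC.X4, Fd_add, mul_add, Finset.sum_add_distrib]
  ring

/-- contraction of the covariant derivative of the curvature -/
theorem cd4_contract (hG : ∀ a c d, TC.Ga A w a c d = - TC.Ga A w a d c) (q b c : Ix n) :
    ∑ p, TC.cd4 e A w q (TC.K e n0 A w) b p p c = TC.cd2 e A w q (TC.Sr e n0 A w) b c := by
  have h1 : ∑ p, ∑ f, (TC.Ga A w q p f * TC.K e n0 A w b f p c
      + TC.Ga A w q p f * TC.K e n0 A w b p f c) = 0 := by
    simp only [Finset.sum_add_distrib]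
    have h2 : ∑ p, ∑ f, TC.Ga A w q p f * TC.K e n0 A w b p f c =
        - ∑ p, ∑ f, TC.Ga A w q p f * TC.K e n0 A w b f p c := by
      rw [Finset.sum_comm, ← Finset.sum_neg_distrib]
      refine Finset.sum_congr rfl fun f _ => ?_
      rw [← Finset.sum_neg_distrib]
      refine Finset.sum_congr rfl fun p _ => ?_
      rw [hG q p f]
      ring
    rw [h2, add_neg_cancel]
  have h3 : ∀ p, TC.cd4 e A w q (TC.K e n0 A w) b p p c =
      FR.Fd e A q (TC.K e n0 A w b p p c)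
      - ∑ f, (TC.Ga A w q b f * TC.K e n0 A w f p p c + TC.Ga A w q c f * TC.K e n0 A w b p p f)
      - ∑ f, (TC.Ga A w q p f * TC.K e n0 A w b f p c
        + TC.Ga A w q p f * TC.K e n0 A w b p f c) := by
    intro p
    simp only [TC.cd4, Finset.sum_add_distrib]
    ring
  rw [Finset.sum_congr rfl fun p _ => h3 p, Finset.sum_sub_distrib, Finset.sum_sub_distrib, h1,
    sub_zero, ← Fd_sum, Finset.sum_comm]
  simp only [TC.cd2, TC.Sr, Finset.mul_sum, ← Finset.sum_add_distrib]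

theorem tev : G_TEV := by
  intro hANT hBIA hTEV1 n 𝒜 _ _ e n0 A θ w hBH hCH a b c
  obtain ⟨-, -, hG, hK1, -⟩ := hANT n 𝒜 e n0 A θ w hCH.anti
  have hB := (hBIA n 𝒜 e n0 A θ w hBH hCH).2
  rw [hTEV1 n 𝒜 e n0 A θ w hCH a b c]
  -- the divergence of `X4`
  have hneg : ∀ q a p c d, TC.cd4 e A w q (TC.K e n0 A w) a p c d =
      - TC.cd4 e A w q (TC.K e n0 A w) p a c d := by
    intro q a p c d
    have h0 : TC.K e n0 A w a p c d = - TC.K e n0 A w p a c d := hK1 a p c d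
    simp only [TC.cd4]
    rw [h0, Fd_neg, neg_sub', neg_inj.2 rfl, ← Finset.sum_neg_distrib]
    congr 1
    refine Finset.sum_congr rfl fun f _ => ?_
    rw [hK1 f p c d, hK1 a f c d, hK1 a p f d, hK1 a p c f]
    ring
  have h1 : ∑ p, TC.cd4 e A w p (TC.X4 e n0 A w) p a b c =
      TC.y3 e n0 A w a b c - TC.y3 e n0 A w b a c
        + ∑ p, TC.cd4 e A w p (TC.K e n0 A w) a b p c := by
    have h2 : ∀ p, TC.cd4 e A w p (TC.X4 e n0 A w) p a b c =
        TC.cd4 e A w p (TC.K e n0 A w) p a b c - TC.cd4 e A w p (TC.K e n0 A w) p b a c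
          + TC.cd4 e A w p (TC.K e n0 A w) a b p c := by
      intro p
      rw [cd4_X4, hneg p b p a c]
      ring
    rw [Finset.sum_congr rfl fun p _ => h2 p, Finset.sum_add_distrib, Finset.sum_sub_distrib]
    rfl
  have h3 : ∑ p, TC.cd4 e A w p (TC.K e n0 A w) a b p c =
      - TC.cd2 e A w a (TC.Sr e n0 A w) b c + TC.cd2 e A w b (TC.Sr e n0 A w) a c
      - ∑ p, ∑ f, (TC.ta e n0 A θ w p a f * TC.K e n0 A w f b p c
        + TC.ta e n0 A θ w a b f * TC.K e n0 A w f p p c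
        + TC.ta e n0 A θ w b p f * TC.K e n0 A w f a p c) := by
    have h4 : ∀ p, TC.cd4 e A w p (TC.K e n0 A w) a b p c =
        - TC.cd4 e A w a (TC.K e n0 A w) b p p c + TC.cd4 e A w b (TC.K e n0 A w) a p p c
        - ∑ f, (TC.ta e n0 A θ w p a f * TC.K e n0 A w f b p c
          + TC.ta e n0 A θ w a b f * TC.K e n0 A w f p p c
          + TC.ta e n0 A θ w b p f * TC.K e n0 A w f a p c) := by
      intro p
      have h5 := hB p a b p c
      rw [hneg b p a p c] at h5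
      linear_combination h5
    rw [Finset.sum_congr rfl fun p _ => h4 p, Finset.sum_sub_distrib, Finset.sum_add_distrib,
      Finset.sum_neg_distrib, cd4_contract e n0 A w hG, cd4_contract e n0 A w hG]
  have h6 : ∑ p, ∑ f, (TC.ta e n0 A θ w p a f * TC.K e n0 A w f b p c
        + TC.ta e n0 A θ w a b f * TC.K e n0 A w f p p c
        + TC.ta e n0 A θ w b p f * TC.K e n0 A w f a p c) =
      ∑ p, ∑ f, (TC.ta e n0 A θ w p a f * TC.K e n0 A w f b p c
        + TC.ta e n0 A θ w b p f * TC.K e n0 A w f a p c)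
      + ∑ q, TC.ta e n0 A θ w a b q * TC.Sr e n0 A w q c := by
    have h7 : ∑ q, TC.ta e n0 A θ w a b q * TC.Sr e n0 A w q c =
        ∑ p, ∑ f, TC.ta e n0 A θ w a b f * TC.K e n0 A w f p p c := by
      rw [Finset.sum_comm]
      refine Finset.sum_congr rfl fun f _ => ?_
      rw [TC.Sr, Finset.mul_sum]
    rw [h7, ← Finset.sum_add_distrib]
    refine Finset.sum_congr rfl fun p _ => ?_
    rw [← Finset.sum_add_distrib]
    refine Finset.sum_congr rfl fun f _ => ?_
    ring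
  have h8 : ∑ q, TC.ta e n0 A θ w a b q * TC.Mm e n0 A w q c =
      ∑ q, TC.ta e n0 A θ w a b q * TC.Sr e n0 A w q c
        + ∑ q, TC.ta e n0 A θ w a b q * TC.ze e A w q c := by
    rw [← Finset.sum_add_distrib]
    refine Finset.sum_congr rfl fun q _ => ?_
    rw [TC.Mm, mul_add]
  rw [h1, h3, h6, h8]
  ring

end Pool.Agent.Helper56.RN
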